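import Pool.Agent.Lib.MP_405077_mp.Defs

set_option autoImplicit false

open MeasureTheory Set Filter Topology

namespace Pool.Agent.Lib.MP_405077_mp.H63

open Pool.Agent.Lib.MP_405077_mp

/-- The truncated power of the norm is integrable on `E3`. -/
theorem integrable_trunc (s r : ℝ) (hs : -3 < s) (hr : 0 < r) :
    Integrable (fun x : E3 => if ‖x‖ < r then ‖x‖ ^ s else 0) := by
  have h1 : IntegrableOn (fun x : E3 => (fun t : ℝ => t ^ s) ‖x‖) (Metric.ball (0 : E3) r) := by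
    refine (integrableOn_fun_norm_addHaar (volume : Measure E3) (f := fun t : ℝ => t ^ s)).2 ?_
    have hf : Module.finrank ℝ E3 = 3 := by simp
    rw [hf]
    have h2 : IntegrableOn (fun y : ℝ => y ^ (s + 2)) (Ioo 0 r) := by
      rw [intervalIntegral.integrableOn_Ioo_rpow_iff hr]
      linarith
    refine h2.congr_fun ?_ measurableSet_Ioo
    intro y hy
    have hy0 : 0 < y := hy.1
    simp only [smul_eq_mul]
    rw [Real.rpow_add hy0, mul_comm]
    norm_num
  rw [← integrable_indicator_iff measurableSet_ball] at h1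
  refine h1.congr (Eventually.of_forall fun x => ?_)
  simp only [Set.indicator, Metric.mem_ball, dist_zero_right]

theorem integrable_trunc_sub (s r : ℝ) (hs : -3 < s) (hr : 0 < r) (R : E3) :
    Integrable (fun x : E3 => if ‖x - R‖ < r then ‖x - R‖ ^ s else 0) :=
  (integrable_trunc s r hs hr).comp_sub_right R

/-- Elementary Young inequality. -/
theorem young (a s ε : ℝ) (ha : 0 ≤ a) (hs : 0 ≤ s) (hε : 0 < ε) :
    a * s ≤ ε * s ^ (5 / 3 : ℝ) + ε ^ (-(3 / 2) : ℝ) * a ^ (5 / 2 : ℝ) := by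
  have h1 : 0 ≤ ε * s ^ (5 / 3 : ℝ) := by positivity
  have h2 : 0 ≤ ε ^ (-(3 / 2) : ℝ) * a ^ (5 / 2 : ℝ) := by positivity
  by_cases h : a ≤ ε * s ^ (2 / 3 : ℝ)
  · have h3 : s ^ (5 / 3 : ℝ) = s ^ (2 / 3 : ℝ) * s := by
      rcases hs.eq_or_lt with rfl | hs0
      · rw [Real.zero_rpow (by norm_num), mul_zero]
      · rw [← Real.rpow_add_one hs0.ne']
        norm_num
    have h4 : a * s ≤ ε * s ^ (5 / 3 : ℝ) := by
      rw [h3, ← mul_assoc]
      exact mul_le_mul_of_nonneg_right h hs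
    linarith
  · push Not at h
    have ha0 : 0 < a := lt_of_le_of_lt (by positivity) h
    have h3 : s ≤ (a / ε) ^ (3 / 2 : ℝ) := by
      have h4 : s ^ (2 / 3 : ℝ) ≤ a / ε := by
        rw [le_div_iff₀ hε]
        linarith
      calc s = (s ^ (2 / 3 : ℝ)) ^ (3 / 2 : ℝ) := by
            rw [← Real.rpow_mul hs]
            norm_num
        _ ≤ (a / ε) ^ (3 / 2 : ℝ) := Real.rpow_le_rpow (by positivity) h4 (by norm_num)
    have h5 : a * s ≤ ε ^ (-(3 / 2) : ℝ) * a ^ (5 / 2 : ℝ) := by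
      calc a * s ≤ a * (a / ε) ^ (3 / 2 : ℝ) := mul_le_mul_of_nonneg_left h3 ha
        _ = ε ^ (-(3 / 2) : ℝ) * a ^ (5 / 2 : ℝ) := by
            rw [Real.div_rpow ha0.le hε.le, Real.rpow_neg hε.le]
            have h6 : a ^ (5 / 2 : ℝ) = a * a ^ (3 / 2 : ℝ) := by
              rw [show (5 / 2 : ℝ) = 1 + 3 / 2 by norm_num, Real.rpow_add ha0, Real.rpow_one]
            rw [h6]
            field_simp
    linarith

theorem kin_nonneg {σ : E3 → ℝ} (h : ∀ x, 0 ≤ σ x) : 0 ≤ ∫ x, σ x ^ (5 / 3 : ℝ) :=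
  integral_nonneg (fun x => Real.rpow_nonneg (h x) _)

theorem dir_nonneg {σ : E3 → ℝ} (h : ∀ x, 0 ≤ σ x) : 0 ≤ dir σ := by
  unfold dir
  have : 0 ≤ ∫ x, σ x * pot σ x :=
    integral_nonneg (fun x => mul_nonneg (h x)
      (integral_nonneg (fun y => div_nonneg (h y) (norm_nonneg _))))
  linarith

theorem nuc_nonneg {k : ℕ} (z : Fin k → ℝ) (R : Fin k → E3) (hz : ∀ i, 0 < z i) (x : E3) :
    0 ≤ nuc z R x :=
  Finset.sum_nonneg (fun i _ => div_nonneg (hz i).le (norm_nonneg _))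

/-- Upper bound of the attraction. -/
theorem attraction {k : ℕ} (z : Fin k → ℝ) (R : Fin k → E3) (hz : ∀ i, 0 < z i) (ε : ℝ)
    (hε : 0 < ε) :
    ∃ C : ℝ, ∀ σ : E3 → ℝ, Adm σ →
      ∫ x, nuc z R x * σ x ≤ ε * (∫ x, σ x ^ (5 / 3 : ℝ)) + (∑ i, z i) * (∫ x, σ x) + C := by
  classical
  set η : ℝ := ε / (k + 1) with hη
  have hη0 : 0 < η := by positivity
  refine ⟨∑ i, ∫ x, η ^ (-(3 / 2) : ℝ) * (z i ^ (5 / 2 : ℝ) *
      (if ‖x - R i‖ < 1 then ‖x - R i‖ ^ (-(5 / 2) : ℝ) else 0)), fun σ hσ => ?_⟩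
  have hint : ∀ i : Fin k, Integrable (fun x : E3 => η ^ (-(3 / 2) : ℝ) * (z i ^ (5 / 2 : ℝ) *
      (if ‖x - R i‖ < 1 then ‖x - R i‖ ^ (-(5 / 2) : ℝ) else 0))) := fun i =>
    ((integrable_trunc_sub (-(5 / 2)) 1 (by norm_num) one_pos (R i)).const_mul _).const_mul _
  have hp : ∀ (i : Fin k) (x : E3), z i / ‖x - R i‖ * σ x ≤
      η * σ x ^ (5 / 3 : ℝ) + z i * σ x + η ^ (-(3 / 2) : ℝ) * (z i ^ (5 / 2 : ℝ) *
      (if ‖x - R i‖ < 1 then ‖x - R i‖ ^ (-(5 / 2) : ℝ) else 0)) := by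
    intro i x
    have hs := hσ.nonneg x
    have hz0 := (hz i).le
    by_cases hx : ‖x - R i‖ < 1
    · rw [if_pos hx]
      have h1 := young (z i / ‖x - R i‖) (σ x) η (div_nonneg hz0 (norm_nonneg _)) hs hη0
      have h2 : (z i / ‖x - R i‖) ^ (5 / 2 : ℝ) =
          z i ^ (5 / 2 : ℝ) * ‖x - R i‖ ^ (-(5 / 2) : ℝ) := by
        rw [Real.div_rpow hz0 (norm_nonneg _), Real.rpow_neg (norm_nonneg _)]
        rfl
      rw [h2] at h1
      have h3 : 0 ≤ z i * σ x := mul_nonneg hz0 hs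
      linarith
    · rw [if_neg hx]
      push Not at hx
      have h1 : z i / ‖x - R i‖ ≤ z i := div_le_self hz0 hx
      have h2 : z i / ‖x - R i‖ * σ x ≤ z i * σ x := mul_le_mul_of_nonneg_right h1 hs
      have h3 : 0 ≤ η * σ x ^ (5 / 3 : ℝ) := by positivity
      simp only [mul_zero, add_zero]
      linarith
  have hI1 : Integrable (fun x => (k : ℝ) * (η * σ x ^ (5 / 3 : ℝ))) :=
    (hσ.int53.const_mul η).const_mul _
  have hI2 : Integrable (fun x => (∑ i, z i) * σ x) := hσ.int.const_mul _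
  have hI3 : Integrable (fun x => ∑ i : Fin k, η ^ (-(3 / 2) : ℝ) * (z i ^ (5 / 2 : ℝ) *
      (if ‖x - R i‖ < 1 then ‖x - R i‖ ^ (-(5 / 2) : ℝ) else 0))) :=
    integrable_finsetSum _ (fun i _ => hint i)
  have key : ∫ x, nuc z R x * σ x ≤ ∫ x, ((k : ℝ) * (η * σ x ^ (5 / 3 : ℝ)) +
      (∑ i, z i) * σ x + ∑ i : Fin k, η ^ (-(3 / 2) : ℝ) * (z i ^ (5 / 2 : ℝ) *
      (if ‖x - R i‖ < 1 then ‖x - R i‖ ^ (-(5 / 2) : ℝ) else 0))) := by
    refine integral_mono_of_nonneg (Eventually.of_forall fun x => ?_)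
      ((hI1.add hI2).add hI3) (Eventually.of_forall fun x => ?_)
    · exact mul_nonneg (nuc_nonneg z R hz x) (hσ.nonneg x)
    · show nuc z R x * σ x ≤ _
      unfold nuc
      rw [Finset.sum_mul]
      calc ∑ i, z i / ‖x - R i‖ * σ x ≤ ∑ i : Fin k, (η * σ x ^ (5 / 3 : ℝ) + z i * σ x +
            η ^ (-(3 / 2) : ℝ) * (z i ^ (5 / 2 : ℝ) *
            (if ‖x - R i‖ < 1 then ‖x - R i‖ ^ (-(5 / 2) : ℝ) else 0))) :=
            Finset.sum_le_sum (fun i _ => hp i x)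
        _ = _ := by
            rw [Finset.sum_add_distrib, Finset.sum_add_distrib, Finset.sum_const,
              Finset.card_univ, Fintype.card_fin, nsmul_eq_mul, ← Finset.sum_mul]
  have e1 : ∫ x, ((k : ℝ) * (η * σ x ^ (5 / 3 : ℝ)) +
      (∑ i, z i) * σ x + ∑ i : Fin k, η ^ (-(3 / 2) : ℝ) * (z i ^ (5 / 2 : ℝ) *
      (if ‖x - R i‖ < 1 then ‖x - R i‖ ^ (-(5 / 2) : ℝ) else 0))) =
      (k : ℝ) * (η * ∫ x, σ x ^ (5 / 3 : ℝ)) + (∑ i, z i) * (∫ x, σ x) +
      ∑ i : Fin k, ∫ x, η ^ (-(3 / 2) : ℝ) * (z i ^ (5 / 2 : ℝ) *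
      (if ‖x - R i‖ < 1 then ‖x - R i‖ ^ (-(5 / 2) : ℝ) else 0)) := by
    have hI12 : Integrable (fun x => (k : ℝ) * (η * σ x ^ (5 / 3 : ℝ)) + (∑ i, z i) * σ x) :=
      hI1.add hI2
    rw [integral_add hI12 hI3, integral_add hI1 hI2, integral_const_mul,
      integral_const_mul, integral_const_mul, integral_finsetSum _ (fun i _ => hint i)]
  rw [e1] at key
  have h4 : (k : ℝ) * (η * ∫ x, σ x ^ (5 / 3 : ℝ)) ≤ ε * ∫ x, σ x ^ (5 / 3 : ℝ) := by
    rw [← mul_assoc]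
    refine mul_le_mul_of_nonneg_right ?_ (kin_nonneg hσ.nonneg)
    rw [hη, mul_div_assoc', div_le_iff₀ (by positivity)]
    nlinarith
  linarith

/-- Potential of a small density. -/
theorem pot_small {σ : E3 → ℝ} (hσ : Adm σ) (s₀ η : ℝ) (hs₀ : 0 ≤ s₀) (hη : 0 < η)
    (hb : ∀ x, σ x ≤ s₀) (x : E3) :
    pot σ x ≤ s₀ * (∫ y : E3, if ‖y‖ < η then ‖y‖ ^ (-1 : ℝ) else 0) + (∫ y, σ y) / η := by
  have hI1 : Integrable (fun y : E3 => s₀ * (if ‖y - x‖ < η then ‖y - x‖ ^ (-1 : ℝ) else 0)) :=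
    (integrable_trunc_sub (-1) η (by norm_num) hη x).const_mul _
  have hI2 : Integrable (fun y : E3 => σ y / η) := hσ.int.div_const _
  have h1 : pot σ x ≤ ∫ y, (s₀ * (if ‖y - x‖ < η then ‖y - x‖ ^ (-1 : ℝ) else 0) + σ y / η) := by
    unfold pot
    refine integral_mono_of_nonneg (Eventually.of_forall fun y => ?_) (hI1.add hI2)
      (Eventually.of_forall fun y => ?_)
    · exact div_nonneg (hσ.nonneg y) (norm_nonneg _)
    · show σ y / ‖x - y‖ ≤
        s₀ * (if ‖y - x‖ < η then ‖y - x‖ ^ (-1 : ℝ) else 0) + σ y / η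
      have h0 := hσ.nonneg y
      have hc : ‖x - y‖ = ‖y - x‖ := norm_sub_rev x y
      rw [hc]
      by_cases h : ‖y - x‖ < η
      · rw [if_pos h, Real.rpow_neg_one, div_eq_mul_inv]
        have h2 : σ y * ‖y - x‖⁻¹ ≤ s₀ * ‖y - x‖⁻¹ :=
          mul_le_mul_of_nonneg_right (hb y) (by positivity)
        have h3 : 0 ≤ σ y / η := div_nonneg h0 hη.le
        linarith
      · rw [if_neg h]
        push Not at h
        have h2 : σ y / ‖y - x‖ ≤ σ y / η := div_le_div_of_nonneg_left h0 hη h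
        linarith
  rw [integral_add hI1 hI2, integral_const_mul, integral_div] at h1
  have h2 : (∫ y : E3, if ‖y - x‖ < η then ‖y - x‖ ^ (-1 : ℝ) else 0) =
      ∫ y : E3, if ‖y‖ < η then ‖y‖ ^ (-1 : ℝ) else 0 :=
    integral_sub_right_eq_self (fun y : E3 => if ‖y‖ < η then ‖y‖ ^ (-1 : ℝ) else 0) x
  rwa [h2] at h1

/-- The trial density: constant on a ball. -/
noncomputable def trial (lam : ℝ) (n : ℕ) : E3 → ℝ :=
  (Metric.ball (0 : E3) (n + 1)).indicator
    (fun _ => lam / volume.real (Metric.ball (0 : E3) (n + 1)))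

theorem vol_ball (n : ℕ) :
    volume.real (Metric.ball (0 : E3) (n + 1)) = ((n : ℝ) + 1) ^ 3 * (Real.pi * 4 / 3) := by
  rw [Measure.real, EuclideanSpace.volume_ball_fin_three, ENNReal.toReal_mul,
    ENNReal.toReal_pow, ENNReal.toReal_ofReal (by positivity),
    ENNReal.toReal_ofReal (by positivity)]

theorem vol_pos (n : ℕ) : 0 < volume.real (Metric.ball (0 : E3) (n + 1)) := by
  rw [vol_ball]; positivity

theorem trial_adm (lam : ℝ) (hl : 0 < lam) (n : ℕ) :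
    Adm (trial lam n) ∧ ∫ x, trial lam n x = lam ∧
      ∀ x, trial lam n x ≤ lam / volume.real (Metric.ball (0 : E3) (n + 1)) := by
  have hv := vol_pos n
  have h0 : 0 ≤ lam / volume.real (Metric.ball (0 : E3) (n + 1)) := by positivity
  have hfin : volume (Metric.ball (0 : E3) (n + 1)) ≠ ⊤ := measure_ball_lt_top.ne
  have hI : ∀ c : ℝ, Integrable ((Metric.ball (0 : E3) (n + 1)).indicator (fun _ => c)) := by
    intro c
    rw [integrable_indicator_iff measurableSet_ball]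
    exact integrableOn_const hfin
  refine ⟨⟨fun x => ?_, hI _, ?_⟩, ?_, fun x => ?_⟩
  · exact Set.indicator_nonneg (fun _ _ => h0) x
  · refine (hI ((lam / volume.real (Metric.ball (0 : E3) (n + 1))) ^ (5 / 3 : ℝ))).congr
      (Eventually.of_forall fun x => ?_)
    simp only [trial, Set.indicator]
    split_ifs
    · rfl
    · rw [Real.zero_rpow (by norm_num)]
  · unfold trial
    rw [integral_indicator measurableSet_ball, setIntegral_const, smul_eq_mul]
    field_simp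
  · unfold trial
    rw [Set.indicator]
    split_ifs
    · exact le_refl _
    · exact h0

theorem kin_small {σ : E3 → ℝ} (hσ : Adm σ) (s₀ : ℝ) (hb : ∀ x, σ x ≤ s₀) :
    ∫ x, σ x ^ (5 / 3 : ℝ) ≤ s₀ ^ (2 / 3 : ℝ) * ∫ x, σ x := by
  rw [← integral_const_mul]
  refine integral_mono hσ.int53 (hσ.int.const_mul _) (fun x => ?_)
  show σ x ^ (5 / 3 : ℝ) ≤ s₀ ^ (2 / 3 : ℝ) * σ x
  have h0 := hσ.nonneg x
  have h3 : σ x ^ (5 / 3 : ℝ) = σ x ^ (2 / 3 : ℝ) * σ x := by
    rcases h0.eq_or_lt with h | hs0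
    · rw [← h, Real.zero_rpow (by norm_num), mul_zero]
    · rw [← Real.rpow_add_one hs0.ne']
      norm_num
  rw [h3]
  exact mul_le_mul_of_nonneg_right (Real.rpow_le_rpow h0 (hb x) (by norm_num)) h0

theorem dir_small {σ : E3 → ℝ} (hσ : Adm σ) (B : ℝ) (hB : ∀ x, pot σ x ≤ B) :
    dir σ ≤ 1 / 2 * (B * ∫ x, σ x) := by
  unfold dir
  refine mul_le_mul_of_nonneg_left ?_ (by norm_num)
  rw [← integral_const_mul]
  refine integral_mono_of_nonneg (Eventually.of_forall fun x => ?_) (hσ.int.const_mul _)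
    (Eventually.of_forall fun x => ?_)
  · exact mul_nonneg (hσ.nonneg x)
      (integral_nonneg (fun y => div_nonneg (hσ.nonneg y) (norm_nonneg _)))
  · show σ x * pot σ x ≤ B * σ x
    rw [mul_comm]
    exact mul_le_mul_of_nonneg_right (hB x) (hσ.nonneg x)

theorem below : BelowStatement := by
  intro k z R γ τ hz hγ hτ lam hlam
  refine ⟨?_, ?_⟩
  · obtain ⟨C, hC⟩ := attraction z R hz (τ * γ * (3 / 5)) (by positivity)
    refine ⟨-(τ * ((∑ i, z i) * lam + C)), fun σ hσ hint => ?_⟩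
    have h1 := hC σ hσ
    rw [hint] at h1
    have h2 := dir_nonneg hσ.nonneg
    unfold fun0 kin
    have h3 := mul_le_mul_of_nonneg_left h1 hτ.le
    have h4 : 0 ≤ τ * dir σ := mul_nonneg hτ.le h2
    nlinarith
  · intro δ hδ
    -- choice of the cutoff
    set s : ℕ → ℝ := fun n => lam / volume.real (Metric.ball (0 : E3) (n + 1)) with hs
    have hs0 : ∀ n, 0 ≤ s n := fun n => (div_pos hlam (vol_pos n)).le
    have hslim : Tendsto s atTop (𝓝 0) := by
      refine squeeze_zero hs0 (g := fun n : ℕ => lam / ((n : ℝ) + 1)) (fun n => ?_) ?_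
      · show lam / volume.real (Metric.ball (0 : E3) (n + 1)) ≤ lam / ((n : ℝ) + 1)
        refine div_le_div_of_nonneg_left hlam.le (by positivity) ?_
        rw [vol_ball]
        have h1 : (1 : ℝ) ≤ (n : ℝ) + 1 := by
          have : (0 : ℝ) ≤ n := Nat.cast_nonneg n
          linarith
        have h2 : (1 : ℝ) ≤ Real.pi * 4 / 3 := by
          have := Real.pi_gt_three
          linarith
        have h3 : (n : ℝ) + 1 ≤ ((n : ℝ) + 1) ^ 3 := by
          nlinarith [sq_nonneg ((n : ℝ) + 1)]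
        calc (n : ℝ) + 1 ≤ ((n : ℝ) + 1) ^ 3 := h3
          _ = ((n : ℝ) + 1) ^ 3 * 1 := (mul_one _).symm
          _ ≤ ((n : ℝ) + 1) ^ 3 * (Real.pi * 4 / 3) :=
            mul_le_mul_of_nonneg_left h2 (by positivity)
      · have := tendsto_one_div_add_atTop_nhds_zero_nat (𝕜 := ℝ)
        have h2 := this.const_mul lam
        simpa [mul_one_div, div_eq_mul_inv] using h2
    set η : ℝ := τ * lam ^ 2 / δ with hη
    have hη0 : 0 < η := by positivity
    set c : ℝ := ∫ y : E3, if ‖y‖ < η then ‖y‖ ^ (-1 : ℝ) else 0 with hc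
    -- the bound
    have hbd : ∀ n, fun0 γ τ 0 (nuc z R) (trial lam n) ≤
        τ ^ 2 * γ * (3 / 5 * (s n ^ (2 / 3 : ℝ) * lam)) +
          τ * (1 / 2 * ((s n * c + lam / η) * lam)) := by
      intro n
      obtain ⟨hA, hI, hb⟩ := trial_adm lam hlam n
      have h1 := kin_small hA (s n) hb
      have h2 := dir_small hA (s n * c + lam / η) (fun x => by
        have := pot_small hA (s n) η (hs0 n) hη0 hb x
        rwa [hI] at this)
      rw [hI] at h1 h2
      have h3 : 0 ≤ ∫ x, nuc z R x * trial lam n x :=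
        integral_nonneg (fun x => mul_nonneg (nuc_nonneg z R hz x) (hA.nonneg x))
      unfold fun0 kin
      have h4 : τ ^ 2 * γ * (3 / 5 * ∫ x, trial lam n x ^ (5 / 3 : ℝ)) ≤
          τ ^ 2 * γ * (3 / 5 * (s n ^ (2 / 3 : ℝ) * lam)) :=
        mul_le_mul_of_nonneg_left (mul_le_mul_of_nonneg_left h1 (by norm_num)) (by positivity)
      have h5 := mul_le_mul_of_nonneg_left h2 hτ.le
      have h6 := mul_nonneg hτ.le h3
      nlinarith
    have hlim : Tendsto (fun n => τ ^ 2 * γ * (3 / 5 * (s n ^ (2 / 3 : ℝ) * lam)) +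
          τ * (1 / 2 * ((s n * c + lam / η) * lam))) atTop
        (𝓝 (τ ^ 2 * γ * (3 / 5 * ((0 : ℝ) ^ (2 / 3 : ℝ) * lam)) +
          τ * (1 / 2 * ((0 * c + lam / η) * lam)))) := by
      have h1 : Tendsto (fun n => s n ^ (2 / 3 : ℝ)) atTop (𝓝 ((0 : ℝ) ^ (2 / 3 : ℝ))) :=
        hslim.rpow_const (Or.inr (by norm_num))
      exact (((h1.mul_const lam).const_mul (3 / 5)).const_mul (τ ^ 2 * γ)).add
        (((((hslim.mul_const c).add_const (lam / η)).mul_const lam).const_mul (1 / 2)).const_mul τ)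
    have hval : τ ^ 2 * γ * (3 / 5 * ((0 : ℝ) ^ (2 / 3 : ℝ) * lam)) +
          τ * (1 / 2 * ((0 * c + lam / η) * lam)) < δ := by
      rw [Real.zero_rpow (by norm_num)]
      have : τ * (1 / 2 * ((0 * c + lam / η) * lam)) = δ / 2 := by
        rw [hη]
        field_simp
        ring
      rw [this]
      linarith
    obtain ⟨n, hn⟩ := (hlim.eventually (gt_mem_nhds hval)).exists
    obtain ⟨hA, hI, hb⟩ := trial_adm lam hlam n
    exact ⟨trial lam n, hA, hI, (hbd n).trans hn.le⟩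

end Pool.Agent.Lib.MP_405077_mp.H63
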